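import Pool.Agent.Lib.H13.HopfTrie

/-!
# Tries of packed tables, by direct unpacking of the rows

`tabU` is a cheaper replacement of `tabT`: the rows are unpacked entry by entry.
-/

open Finset

namespace HopfKC

/-- Entries of a packed row, multiplied by `m`. -/
noncomputable def unp (m : ℤ) (w o fuel : ℕ) : ℕ → List (ℕ × ℤ) :=
  Nat.rec (motive := fun _ => ℕ → List (ℕ × ℤ)) (fun _ => [])
    (fun _ ih n => bif Nat.beq n 0 then [] else
      (Nat.mod n 128, Int.mul m
        (Int.subNatNat (Nat.shiftRight (Nat.mod n (Nat.shiftLeft 1 w)) 7) o)) ::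
        ih (Nat.shiftRight n w)) fuel

/-- The keys of a packed row are increasing, at least `b` and less than `76`. -/
noncomputable def srtU (w fuel : ℕ) : ℕ → ℕ → Bool :=
  Nat.rec (motive := fun _ => ℕ → ℕ → Bool) (fun _ _ => true)
    (fun _ ih b n => bif Nat.beq n 0 then true else
      bif Nat.ble b (Nat.mod n 128) then (bif Nat.ble (Nat.mod n 128) 75 then
        ih (Nat.succ (Nat.mod n 128)) (Nat.shiftRight n w) else false) else false) fuel

theorem lkf_succ (w o j fuel n : ℕ) : lkf w o j (fuel + 1) n =
    bif Nat.beq n 0 then .ofNat 0 else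
      bif Nat.beq (Nat.mod n 128) j then
        Int.subNatNat (Nat.shiftRight (Nat.mod n (Nat.shiftLeft 1 w)) 7) o
      else lkf w o j fuel (Nat.shiftRight n w) := rfl

theorem unp_succ (m : ℤ) (w o fuel n : ℕ) : unp m w o (fuel + 1) n =
    bif Nat.beq n 0 then [] else
      (Nat.mod n 128, Int.mul m
        (Int.subNatNat (Nat.shiftRight (Nat.mod n (Nat.shiftLeft 1 w)) 7) o)) ::
        unp m w o fuel (Nat.shiftRight n w) := rfl

theorem srtU_succ (w fuel b n : ℕ) : srtU w (fuel + 1) b n =
    bif Nat.beq n 0 then true else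
      bif Nat.ble b (Nat.mod n 128) then (bif Nat.ble (Nat.mod n 128) 75 then
        srtU w fuel (Nat.succ (Nat.mod n 128)) (Nat.shiftRight n w) else false) else false := rfl

theorem lkf_of_srtU (w o : ℕ) (fuel : ℕ) : ∀ (b n j : ℕ), srtU w fuel b n = true → j < b →
    lkf w o j fuel n = 0 := by
  induction fuel with
  | zero => intro b n j _ _; rfl
  | succ fuel ih =>
    intro b n j h hj
    rw [srtU_succ] at h
    rw [lkf_succ]
    cases h0 : Nat.beq n 0 with
    | true => rfl
    | false =>
      rw [h0, cond_false] at h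
      rw [cond_false]
      cases h1 : Nat.ble b (Nat.mod n 128) with
      | false => rw [h1, cond_false] at h; exact absurd h (by decide)
      | true =>
        rw [h1, cond_true] at h
        have hb : b ≤ Nat.mod n 128 := Nat.le_of_ble_eq_true h1
        cases h2 : Nat.ble (Nat.mod n 128) 75 with
        | false => rw [h2, cond_false] at h; exact absurd h (by decide)
        | true =>
          rw [h2, cond_true] at h
          have hne : Nat.beq (Nat.mod n 128) j = false := by
            cases hq : Nat.beq (Nat.mod n 128) j with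
            | false => rfl
            | true =>
              have := Nat.eq_of_beq_eq_true hq
              omega
          rw [hne, cond_false]
          exact ih _ _ _ h (by show j < Nat.mod n 128 + 1; omega)

theorem lev_unp (v : ℕ → ℝ) (m : ℤ) (w o : ℕ) (fuel : ℕ) : ∀ (b n : ℕ),
    srtU w fuel b n = true → lev v (unp m w o fuel n) =
      (m : ℝ) * ∑ j ∈ range 76, (lkf w o j fuel n : ℝ) * v j := by
  induction fuel with
  | zero =>
    intro b n _
    have e : unp m w o 0 n = [] := rfl
    have e2 : ∀ j, lkf w o j 0 n = 0 := fun j => rfl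
    rw [e, lev_nil]
    simp [e2]
  | succ fuel ih =>
    intro b n h
    rw [srtU_succ] at h
    rw [unp_succ]
    cases h0 : Nat.beq n 0 with
    | true =>
      have h5 : n = 0 := Nat.eq_of_beq_eq_true h0
      rw [cond_true, lev_nil, h5]
      simp [lkf_zero]
    | false =>
      rw [h0, cond_false] at h
      rw [cond_false, lev_cons]
      cases h1 : Nat.ble b (Nat.mod n 128) with
      | false => rw [h1, cond_false] at h; exact absurd h (by decide)
      | true =>
        rw [h1, cond_true] at h
        cases h2 : Nat.ble (Nat.mod n 128) 75 with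
        | false => rw [h2, cond_false] at h; exact absurd h (by decide)
        | true =>
          rw [h2, cond_true] at h
          have hq : Nat.mod n 128 ≤ 75 := Nat.le_of_ble_eq_true h2
          have hz : lkf w o (Nat.mod n 128) fuel (Nat.shiftRight n w) = 0 :=
            lkf_of_srtU w o fuel _ _ _ h (Nat.lt_succ_self _)
          rw [ih _ _ h]
          have hmem : Nat.mod n 128 ∈ range 76 := Finset.mem_range.2 (by omega)
          have hstep : ∀ j, lkf w o j (fuel + 1) n = bif Nat.beq (Nat.mod n 128) j then
              Int.subNatNat (Nat.shiftRight (Nat.mod n (Nat.shiftLeft 1 w)) 7) o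
              else lkf w o j fuel (Nat.shiftRight n w) := by
            intro j
            rw [lkf_succ, h0, cond_false]
          simp only [hstep]
          rw [← Finset.add_sum_erase _ _ hmem, ← Finset.add_sum_erase _ _ hmem]
          have hb : Nat.beq (Nat.mod n 128) (Nat.mod n 128) = true := Nat.beq_refl _
          rw [hb, cond_true, hz]
          have hs : ∑ x ∈ (range 76).erase (Nat.mod n 128),
              ((bif Nat.beq (Nat.mod n 128) x then
                Int.subNatNat (Nat.shiftRight (Nat.mod n (Nat.shiftLeft 1 w)) 7) o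
                else lkf w o x fuel (Nat.shiftRight n w) : ℤ) : ℝ) * v x =
              ∑ x ∈ (range 76).erase (Nat.mod n 128),
                (lkf w o x fuel (Nat.shiftRight n w) : ℝ) * v x := by
            refine Finset.sum_congr rfl fun x hx => ?_
            have hne : Nat.beq (Nat.mod n 128) x = false := by
              cases hq2 : Nat.beq (Nat.mod n 128) x with
              | false => rfl
              | true => exact absurd (Nat.eq_of_beq_eq_true hq2).symm (Finset.ne_of_mem_erase hx)
            rw [hne, cond_false]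
          rw [hs]
          have e4 : ((Int.mul m (Int.subNatNat
              (Nat.shiftRight (Nat.mod n (Nat.shiftLeft 1 w)) 7) o) : ℤ) : ℝ) =
              (m : ℝ) * ((Int.subNatNat
              (Nat.shiftRight (Nat.mod n (Nat.shiftLeft 1 w)) 7) o : ℤ) : ℝ) := by
            rw [← Int.cast_mul]; rfl
          rw [e4]
          push_cast
          ring

/-- Entries of a packed row, by unpacking when the keys are sorted. -/
noncomputable def rowU (m : ℤ) (w o fuel r : ℕ) : List (ℕ × ℤ) :=
  bif srtU w fuel 0 r then unp m w o fuel r else rowL (List.range 76) m w o fuel r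

theorem lev_rowU (v : ℕ → ℝ) (m : ℤ) (w o fuel r : ℕ) : lev v (rowU m w o fuel r) =
    (m : ℝ) * ∑ j ∈ range 76, (lkf w o j fuel r : ℝ) * v j := by
  unfold rowU
  cases h : srtU w fuel 0 r with
  | true => rw [cond_true, lev_unp v m w o fuel 0 r h]
  | false => rw [cond_false, lev_rowL, sum_J rfl]

/-- Trie of a table of packed rows. -/
noncomputable def tabU (J : List ℕ) (rowf : ℕ → ℕ) (m : ℤ) (w o fuel : ℕ) : BT :=
  sumT J fun k => sumT J fun i => bif Nat.beq (rowf (Nat.add (Nat.mul 76 k) i)) 0 then .e
    else sing (rowU m w o fuel (rowf (Nat.add (Nat.mul 76 k) i))) 13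
      (Nat.add (Nat.mul 76 k) i)

theorem ev_tabU (v : ℕ → ℝ) {J : List ℕ} (hJ : J = List.range 76) (rowf : ℕ → ℕ) (m : ℤ)
    (w o fuel : ℕ) : (tabU J rowf m w o fuel).ev v 0 0 = (m : ℝ) *
      ∑ k ∈ range 76, ∑ i ∈ range 76, ∑ j ∈ range 76,
        (lkf w o j fuel (rowf (Nat.add (Nat.mul 76 k) i)) : ℝ) * (v k * v i * v j) := by
  unfold tabU
  rw [ev_sumT, sum_J hJ, Finset.mul_sum]
  refine Finset.sum_congr rfl fun k hk => ?_
  rw [ev_sumT, sum_J hJ, Finset.mul_sum]
  refine Finset.sum_congr rfl fun i hi => ?_
  have hk' : k < 76 := Finset.mem_range.1 hk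
  have hi' : i < 76 := Finset.mem_range.1 hi
  have h1 : Nat.add (Nat.mul 76 k) i = 76 * k + i := rfl
  have h2 : 76 * k + i < 2 ^ 13 := by norm_num; omega
  have h3 : (76 * k + i) / 76 = k := by omega
  have h4 : (76 * k + i) % 76 = i := by omega
  rw [h1]
  cases hb : Nat.beq (rowf (76 * k + i)) 0 with
  | true =>
    have h5 : rowf (76 * k + i) = 0 := Nat.eq_of_beq_eq_true hb
    rw [cond_true, BT.ev_e, h5]
    simp [lkf_zero]
  | false =>
    rw [cond_false, ev_sing v _ _ _ _ _ h2, pow_zero, one_mul, zero_add, lev_rowU]
    unfold mk2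
    rw [h3, h4, mul_assoc, Finset.sum_mul]
    congr 1
    refine Finset.sum_congr rfl fun j _ => ?_
    ring

/-- Comparison of a trie and a table. -/
theorem trie_soundU (v : ℕ → ℝ) {J : List ℕ} (hJ : J = List.range 76) {rowf : ℕ → ℕ} {m : ℤ}
    {w o fuel : ℕ} {t : BT} (h : (t.add (tabU J rowf m w o fuel)).isZero = true) :
    t.ev v 0 0 = - ((m : ℝ) * ∑ k ∈ range 76, ∑ i ∈ range 76, ∑ j ∈ range 76,
        (lkf w o j fuel (rowf (Nat.add (Nat.mul 76 k) i)) : ℝ) * (v k * v i * v j)) := by
  have h1 := BT.ev_isZero v h 0 0
  rw [BT.ev_add, ev_tabU v hJ] at h1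
  linarith

/-! ### Splitting of a check over the children of a trie -/

/-- A child of a trie. -/
noncomputable def BT.ch (b : Bool) (t : BT) : BT :=
  BT.rec (motive := fun _ => BT) .e (fun _ a c _ _ => bif b then c else a) t

/-- The root of a trie. -/
noncomputable def BT.rt (t : BT) : List (ℕ × ℤ) :=
  BT.rec (motive := fun _ => List (ℕ × ℤ)) [] (fun x _ _ _ _ => x) t

theorem BT.isZero_of_ch {t : BT} (h0 : allz t.rt = true) (h1 : (t.ch false).isZero = true)
    (h2 : (t.ch true).isZero = true) : t.isZero = true := by
  cases t with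
  | e => rfl
  | n x a b =>
    have e : (BT.n x a b).isZero = bif allz x then (bif a.isZero then b.isZero else false)
      else false := rfl
    have e0 : (BT.n x a b).rt = x := rfl
    have e1 : (BT.n x a b).ch false = a := rfl
    have e2 : (BT.n x a b).ch true = b := rfl
    rw [e0] at h0
    rw [e1] at h1
    rw [e2] at h2
    rw [e, h0, h1, h2]
    rfl

end HopfKC
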