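import Pool.Agent.Lib.EinsteinSix.Sl.Core

/-!
# A cheaper check of the sign invariance of the auxiliary cubic

`ckFw` looks up every sorted monomial; `ckFu` runs through the packed rows once.
-/

namespace EinsteinSix.Sl

open HopfKC

/-- All keys of a packed row satisfy `p`. -/
noncomputable def kyU (p : ℕ → Bool) (w fuel : ℕ) : ℕ → Bool :=
  Nat.rec (motive := fun _ => ℕ → Bool) (fun _ => true)
    (fun _ ih n => bif Nat.beq n 0 then true else
      bif p (Nat.mod n 128) then ih (Nat.shiftRight n w) else false) fuel

theorem kyU_succ (p : ℕ → Bool) (w fuel n : ℕ) : kyU p w (fuel + 1) n =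
    bif Nat.beq n 0 then true else
      bif p (Nat.mod n 128) then kyU p w fuel (Nat.shiftRight n w) else false := rfl

theorem lkf_of_kyU {p : ℕ → Bool} (w o : ℕ) (fuel : ℕ) : ∀ (n j : ℕ), kyU p w fuel n = true →
    p j = false → lkf w o j fuel n = .ofNat 0 := by
  induction fuel with
  | zero => intro n j _ _; rfl
  | succ fuel ih =>
    intro n j h hp
    have e : lkf w o j (fuel + 1) n =
      bif Nat.beq n 0 then .ofNat 0 else
        bif Nat.beq (Nat.mod n 128) j then
          Int.subNatNat (Nat.shiftRight (Nat.mod n (Nat.shiftLeft 1 w)) 7) o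
        else lkf w o j fuel (Nat.shiftRight n w) := rfl
    rw [kyU_succ] at h
    rw [e]
    cases h0 : Nat.beq n 0 with
    | true => rfl
    | false =>
      rw [h0, cond_false] at h
      rw [cond_false]
      cases h1 : p (Nat.mod n 128) with
      | false => rw [h1, cond_false] at h; exact absurd h (by decide)
      | true =>
        rw [h1, cond_true] at h
        have hne : Nat.beq (Nat.mod n 128) j = false := by
          cases hq : Nat.beq (Nat.mod n 128) j with
          | false => rfl
          | true =>
            have h2 := Nat.eq_of_beq_eq_true hq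
            rw [h2, hp] at h1
            exact absurd h1 (by decide)
        rw [hne, cond_false]
        exact ih _ _ h hp

/-- All monomials of the auxiliary cubic with smallest index `k` are sign invariant: row check. -/
noncomputable def ckFu (T : Tr ℕ) (k : ℕ) : Bool :=
  I76.all fun i => bif Nat.ble k i then
    kyU (fun j => Nat.beq (Nat.xor (Nat.xor (mk k) (mk i)) (mk j)) 0) 300 10
      (Tr.get T (Nat.add (Nat.mul 76 k) i))
  else true

theorem ckFw_of_ckFu {T : Tr ℕ} {k : ℕ} (h : ckFu T k = true) : ckFw T k = true := by
  unfold ckFw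
  unfold ckFu at h
  refine List.all_eq_true.2 fun i hi => ?_
  have h1 := List.all_eq_true.1 h i hi
  cases hk : Nat.ble k i with
  | false => rfl
  | true =>
    rw [hk, cond_true] at h1
    rw [cond_true]
    refine List.all_eq_true.2 fun j _ => ?_
    cases hj : Nat.ble i j with
    | false => rfl
    | true =>
      rw [cond_true]
      cases hp : Nat.beq (Nat.xor (Nat.xor (mk k) (mk i)) (mk j)) 0 with
      | true => rfl
      | false =>
        rw [cond_false]
        have h2 := lkf_of_kyU 300 (Nat.shiftLeft 1 290) 10 _ j h1 hp
        have h3 : f3w T k i j = .ofNat 0 := h2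
        rw [h3]
        rfl

theorem all_ckFw_of_ckFu {T : Tr ℕ} (h : I76.all (ckFu T) = true) : I76.all (ckFw T) = true :=
  List.all_eq_true.2 fun k hk => ckFw_of_ckFu (List.all_eq_true.1 h k hk)

end EinsteinSix.Sl
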